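import Pool.Agent.N463.MI.Stm

/-!
Project MI, part E06a: the Gaussian lower bound.
-/

open MeasureTheory

namespace Pool.Agent.N463.MI

private lemma E06a_pt (Y x : ℝ) (hY : 300 ≤ Y) (hx : x ∈ Set.Icc (-1 : ℝ) 1) :
    Real.exp Y * (0.989 * Real.exp (-Y * x ^ 2) - 0.0604 * Real.exp (-(Y / 14) * x ^ 2))
      ≤ Real.exp (Y / (1 + x ^ 2)) * (0.989 - (Y * |x| ^ 3 + 1.04 * |x|) ^ 2 / 2) := by
  have hx2 : x ^ 2 ≤ 1 := by nlinarith [hx.1, hx.2]
  have hx0 : 0 ≤ x ^ 2 := sq_nonneg x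
  have hpos : 0 < 1 + x ^ 2 := by positivity
  have h1 : Y + -Y * x ^ 2 ≤ Y / (1 + x ^ 2) := by
    rw [le_div_iff₀ hpos]; nlinarith [mul_nonneg (by linarith : (0 : ℝ) ≤ Y) (mul_nonneg hx0 hx0)]
  have h2 : Y / (1 + x ^ 2) ≤ Y - Y * x ^ 2 / 2 := by
    rw [div_le_iff₀ hpos]
    nlinarith [mul_nonneg (by linarith : (0 : ℝ) ≤ Y) (mul_nonneg hx0 (sub_nonneg.2 hx2))]
  have e1 : Real.exp Y * Real.exp (-Y * x ^ 2) ≤ Real.exp (Y / (1 + x ^ 2)) := by
    rw [← Real.exp_add]; exact Real.exp_le_exp.2 h1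
  have e2 : Real.exp (Y / (1 + x ^ 2)) ≤ Real.exp Y * Real.exp (-(Y * x ^ 2 / 2)) := by
    rw [← Real.exp_add]; exact Real.exp_le_exp.2 (by linarith)
  -- square bound
  have hab : (Y * |x| ^ 3 + 1.04 * |x|) ^ 2 / 2 ≤ Y ^ 2 * (x ^ 2) ^ 3 + 1.0816 * x ^ 2 := by
    have ha : |x| ^ 2 = x ^ 2 := sq_abs x
    have h6 : (|x| ^ 3) ^ 2 = (x ^ 2) ^ 3 := by rw [← ha]; ring
    nlinarith [sq_nonneg (Y * |x| ^ 3 - 1.04 * |x|)]
  set u : ℝ := Y * x ^ 2 with hu
  have hu0 : 0 ≤ u := by positivity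
  -- u ≤ exp bounds
  have hv1 : u * (1 / 7) ≤ Real.exp (u * (1 / 7) - 1) := by
    have := Real.add_one_le_exp (u * (1 / 7) - 1); linarith
  have hv3 : (u * (1 / 7)) ^ 3 ≤ Real.exp (u * (1 / 7) - 1) ^ 3 :=
    pow_le_pow_left₀ (by positivity) hv1 3
  have hv3' : Real.exp (u * (1 / 7) - 1) ^ 3 = Real.exp (u * (3 / 7)) * Real.exp (-1) ^ 3 := by
    rw [← Real.exp_nat_mul, ← Real.exp_nat_mul, ← Real.exp_add]; congr 1; push_cast; ring
  have hw1 : u * (3 / 7) ≤ Real.exp (u * (3 / 7)) * Real.exp (-1) := by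
    have := Real.add_one_le_exp (u * (3 / 7) - 1)
    rw [← Real.exp_add]
    have h' : u * (3 / 7) - 1 = u * (3 / 7) + -1 := by ring
    rw [← h']; linarith
  have he : Real.exp (-1) < 0.3678794412 := Real.exp_neg_one_lt_d9
  have he0 : 0 < Real.exp (-1) := Real.exp_pos _
  have he3 : Real.exp (-1) ^ 3 ≤ 0.0498 := by
    calc Real.exp (-1) ^ 3 ≤ (0.3678794412 : ℝ) ^ 3 := pow_le_pow_left₀ he0.le he.le 3
      _ ≤ 0.0498 := by norm_num
  have hE : 0 < Real.exp (u * (3 / 7)) := Real.exp_pos _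
  have hb3 : u ^ 3 ≤ 17.1 * Real.exp (u * (3 / 7)) := by
    have : u ^ 3 = 343 * (u * (1 / 7)) ^ 3 := by ring
    rw [this]
    have h'' : Real.exp (u * (3 / 7)) * Real.exp (-1) ^ 3 ≤ Real.exp (u * (3 / 7)) * 0.0498 :=
      mul_le_mul_of_nonneg_left he3 hE.le
    rw [hv3'] at hv3
    linarith
  have hb1 : u ≤ 0.8585 * Real.exp (u * (3 / 7)) := by
    have h'' : Real.exp (u * (3 / 7)) * Real.exp (-1) ≤ Real.exp (u * (3 / 7)) * 0.3678794412 :=
      mul_le_mul_of_nonneg_left he.le hE.le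
    linarith
  have hsum : Y ^ 2 * (x ^ 2) ^ 3 + 1.0816 * x ^ 2 ≤ 0.0604 * Real.exp (u * (3 / 7)) := by
    have hYp : 0 < Y := by linarith
    have key : Y * (Y ^ 2 * (x ^ 2) ^ 3 + 1.0816 * x ^ 2) = u ^ 3 + 1.0816 * u := by
      rw [hu]; ring
    have : Y * (Y ^ 2 * (x ^ 2) ^ 3 + 1.0816 * x ^ 2) ≤ Y * (0.0604 * Real.exp (u * (3 / 7))) := by
      rw [key]
      nlinarith [mul_le_mul_of_nonneg_right hY hE.le]
    exact le_of_mul_le_mul_left this hYp
  have hS0 : 0 ≤ (Y * |x| ^ 3 + 1.04 * |x|) ^ 2 / 2 := by positivity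
  have f1 : Real.exp (Y / (1 + x ^ 2)) * ((Y * |x| ^ 3 + 1.04 * |x|) ^ 2 / 2) ≤
      Real.exp Y * (0.0604 * Real.exp (-(Y / 14) * x ^ 2)) := by
    calc Real.exp (Y / (1 + x ^ 2)) * ((Y * |x| ^ 3 + 1.04 * |x|) ^ 2 / 2)
        ≤ (Real.exp Y * Real.exp (-(Y * x ^ 2 / 2))) * (0.0604 * Real.exp (u * (3 / 7))) := by
          apply mul_le_mul e2 (hab.trans hsum) hS0 (by positivity)
      _ = Real.exp Y * (0.0604 * (Real.exp (-(Y * x ^ 2 / 2)) * Real.exp (u * (3 / 7)))) := by ring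
      _ = Real.exp Y * (0.0604 * Real.exp (-(Y / 14) * x ^ 2)) := by
          rw [← Real.exp_add]; congr 3; rw [hu]; ring
  nlinarith [e1, f1]

private lemma E06a_gauss_low (Y : ℝ) (hY : 300 ≤ Y) :
    0.98 * √(Real.pi / Y) ≤ ∫ x in (-1 : ℝ)..1, Real.exp (-Y * x ^ 2) := by
  have hYp : 0 < Y := by linarith
  have hint1 : Integrable (fun x : ℝ => Real.exp (-Y * x ^ 2)) := integrable_exp_neg_mul_sq hYp
  have hint2 : Integrable (fun x : ℝ => Real.exp (-(Y / 2) * x ^ 2)) :=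
    integrable_exp_neg_mul_sq (by positivity)
  rw [intervalIntegral.integral_of_le (by norm_num), ← integral_indicator measurableSet_Ioc]
  have hmono : ∫ x : ℝ, (Real.exp (-Y * x ^ 2) - Real.exp (-(Y / 2)) * Real.exp (-(Y / 2) * x ^ 2))
      ≤ ∫ x : ℝ, (Set.Ioc (-1 : ℝ) 1).indicator (fun x => Real.exp (-Y * x ^ 2)) x := by
    apply integral_mono (hint1.sub (hint2.const_mul _)) (hint1.indicator measurableSet_Ioc)
    intro x
    show Real.exp (-Y * x ^ 2) - Real.exp (-(Y / 2)) * Real.exp (-(Y / 2) * x ^ 2) ≤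
      (Set.Ioc (-1 : ℝ) 1).indicator (fun x => Real.exp (-Y * x ^ 2)) x
    by_cases hx : x ∈ Set.Ioc (-1 : ℝ) 1
    · simp only [Set.indicator_of_mem hx]
      have : 0 ≤ Real.exp (-(Y / 2)) * Real.exp (-(Y / 2) * x ^ 2) := by positivity
      linarith
    · simp only [Set.indicator_of_notMem hx]
      have hx2 : 1 ≤ x ^ 2 := by
        by_contra hcon
        push Not at hcon
        apply hx
        have := abs_lt.1 ((sq_lt_one_iff_abs_lt_one x).1 hcon)
        exact ⟨this.1, this.2.le⟩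
      rw [← Real.exp_add]
      have : Real.exp (-Y * x ^ 2) ≤ Real.exp (-(Y / 2) + -(Y / 2) * x ^ 2) := by
        apply Real.exp_le_exp.2; nlinarith
      linarith
  refine le_trans ?_ hmono
  rw [integral_sub hint1 (hint2.const_mul _), integral_const_mul, integral_gaussian,
    integral_gaussian]
  have hs : √(Real.pi / (Y / 2)) ≤ 2 * √(Real.pi / Y) := by
    have h4 : (2 : ℝ) = √4 := by
      rw [show (4 : ℝ) = 2 ^ 2 by norm_num]; simp
    rw [show Real.pi / (Y / 2) = 2 * (Real.pi / Y) by field_simp]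
    rw [h4, ← Real.sqrt_mul (by norm_num)]
    apply Real.sqrt_le_sqrt
    have h44 : (√4 : ℝ) = 2 := h4.symm
    rw [h44]
    have : 0 ≤ Real.pi / Y := by positivity
    linarith
  have he : Real.exp (-(Y / 2)) ≤ 0.01 := by
    have h1 := Real.add_one_le_exp (Y / 2)
    have h2 : Real.exp (-(Y / 2)) * Real.exp (Y / 2) = 1 := by
      rw [← Real.exp_add]; simp
    have h3 : 0 < Real.exp (-(Y / 2)) := Real.exp_pos _
    nlinarith
  have hp : 0 ≤ √(Real.pi / Y) := Real.sqrt_nonneg _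
  have : Real.exp (-(Y / 2)) * √(Real.pi / (Y / 2)) ≤ 0.01 * (2 * √(Real.pi / Y)) :=
    mul_le_mul he hs (Real.sqrt_nonneg _) (by norm_num)
  linarith

private lemma E06a_gauss_up (Y : ℝ) (hY : 300 ≤ Y) :
    ∫ x in (-1 : ℝ)..1, Real.exp (-(Y / 14) * x ^ 2) ≤ 4 * √(Real.pi / Y) := by
  have hYp : 0 < Y := by linarith
  have hint : Integrable (fun x : ℝ => Real.exp (-(Y / 14) * x ^ 2)) :=
    integrable_exp_neg_mul_sq (by positivity)
  rw [intervalIntegral.integral_of_le (by norm_num)]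
  refine (setIntegral_le_integral hint (Filter.Eventually.of_forall fun x => (Real.exp_pos _).le)).trans ?_
  rw [integral_gaussian]
  have h4 : (4 : ℝ) = √16 := by
    rw [show (16 : ℝ) = 4 ^ 2 by norm_num]; simp
  rw [show Real.pi / (Y / 14) = 14 * (Real.pi / Y) by field_simp]
  rw [h4, ← Real.sqrt_mul (by norm_num)]
  apply Real.sqrt_le_sqrt
  have : 0 ≤ Real.pi / Y := by positivity
  linarith

theorem t_E06a : E06a := by
  intro Y hY
  have hYp : 0 < Y := by linarith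
  have hc1 : Continuous (fun x : ℝ => Real.exp Y * (0.989 * Real.exp (-Y * x ^ 2)
      - 0.0604 * Real.exp (-(Y / 14) * x ^ 2))) := by fun_prop
  have hc2 : Continuous (fun x : ℝ => Real.exp (Y / (1 + x ^ 2)) *
      (0.989 - (Y * |x| ^ 3 + 1.04 * |x|) ^ 2 / 2)) := by
    have : ∀ x : ℝ, 1 + x ^ 2 ≠ 0 := fun x => by positivity
    have h1 : Continuous (fun x : ℝ => Y / (1 + x ^ 2)) :=
      continuous_const.div (by fun_prop) this
    exact (Real.continuous_exp.comp h1).mul (by fun_prop)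
  have hmono := intervalIntegral.integral_mono_on (μ := volume) (a := (-1 : ℝ)) (b := 1) (by norm_num)
    (hc1.intervalIntegrable _ _) (hc2.intervalIntegrable _ _) (fun x hx => E06a_pt Y x hY hx)
  refine le_trans ?_ hmono
  rw [intervalIntegral.integral_const_mul, intervalIntegral.integral_sub
    (Continuous.intervalIntegrable (by fun_prop) _ _) (Continuous.intervalIntegrable (by fun_prop) _ _),
    intervalIntegral.integral_const_mul, intervalIntegral.integral_const_mul]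
  have h1 := E06a_gauss_low Y hY
  have h2 := E06a_gauss_up Y hY
  have hp : 0 ≤ √(Real.pi / Y) := Real.sqrt_nonneg _
  have hE : 0 < Real.exp Y := Real.exp_pos _
  have h3 : 1 / 2 * √(Real.pi / Y) ≤ 0.989 * (∫ x in (-1 : ℝ)..1, Real.exp (-Y * x ^ 2))
      - 0.0604 * ∫ x in (-1 : ℝ)..1, Real.exp (-(Y / 14) * x ^ 2) := by
    nlinarith
  calc 1 / 2 * √(Real.pi / Y) * Real.exp Y = Real.exp Y * (1 / 2 * √(Real.pi / Y)) := by ring
    _ ≤ _ := mul_le_mul_of_nonneg_left h3 hE.le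

end Pool.Agent.N463.MI
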